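import Mathlib
import Pool.Agent.H14.MinorGap

set_option autoImplicit false

namespace Pool.Agent.Results.MP_4dddeb_co.GapUnbounded

open Pool.Agent.H14.MinorGap

/-- For some suitable family, `gap(n) - |E(n)|` is unbounded. -/
theorem result : ∃ ℋ, Suitable ℋ ∧ ∀ C : ℕ, ∃ n, 1 ≤ n ∧ (Eset ℋ n).ncard + C < gap ℋ n := by
  refine ⟨H0, suit, fun C => ⟨6 * (C + 1), by omega, ?_⟩⟩
  have := six (C + 1)
  omega

end Pool.Agent.Results.MP_4dddeb_co.GapUnbounded
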