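import Mathlib
import Pool.Agent.H14.MinorGap

set_option autoImplicit false

namespace Pool.Agent.Results.MP_4dddeb_co.RatioNotOne

open Pool.Agent.H14.MinorGap Filter Topology

/-- For some suitable linearly impure family, `|E(n)| / gap(n)` does not tend to `1`. -/
theorem result : ∃ ℋ, Suitable ℋ ∧ (∃ c : ℝ, 0 < c ∧ ∀ᶠ n : ℕ in atTop, c ≤ (gap ℋ n : ℝ) / n) ∧
    ¬ Tendsto (fun n => ((Eset ℋ n).ncard : ℝ) / gap ℋ n) atTop (𝓝 1) := by
  refine ⟨H0, suit, ⟨1 / 4, by norm_num, eventually_atTop.2 ⟨16, fun n hn => ?_⟩⟩, fun h => ?_⟩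
  · have := gap_ge n
    rw [div_le_div_iff₀ (by norm_num) (by exact_mod_cast (by omega : 0 < n))]
    exact_mod_cast (by omega : 1 * n ≤ gap H0 n * 4)
  · obtain ⟨m, hm⟩ := eventually_atTop.1 (h.eventually (lt_mem_nhds (show (2 / 3 : ℝ) < 1 by
      norm_num)))
    have t := hm (6 * (m + 1)) (by omega)
    have := six (m + 1)
    rw [div_lt_div_iff₀ (by norm_num) (by exact_mod_cast (by omega : 0 < gap H0 (6 * (m + 1))))] at t
    have : 2 * gap H0 (6 * (m + 1)) < (Eset H0 (6 * (m + 1))).ncard * 3 := by exact_mod_cast t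
    omega

end Pool.Agent.Results.MP_4dddeb_co.RatioNotOne
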